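import Mathlib

set_option autoImplicit false

namespace Pool.Agent.Results.MP_f0fa00_gt.SigmaProduct

open Filter Topology

/-- `X` is selectively highly divergent: for every sequence `U` of nonempty open subsets of `X`,
one can choose points `x n ∈ U n` such that no subsequence of `x` converges in `X`. -/
def SHD (X : Type) [TopologicalSpace X] : Prop :=
  ∀ U : ℕ → Set X, (∀ n, IsOpen (U n)) → (∀ n, (U n).Nonempty) →
    ∃ x : ℕ → X, (∀ n, x n ∈ U n) ∧
      ∀ φ : ℕ → ℕ, StrictMono φ → ∀ a : X, ¬ Tendsto (x ∘ φ) atTop (𝓝 a)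

/-- The index set. -/
abbrev Idx : Type := (ℕ → ℕ) × ℝ

/-- The Sigma-product: all points of countable support. -/
def sigma : AddSubgroup (Idx → ZMod 2) where
  carrier := {x | (Function.support x).Countable}
  zero_mem' := by simp
  add_mem' := by
    intro a b ha hb
    refine Set.Countable.mono (Function.support_add a b) ?_
    exact ha.union hb
  neg_mem' := by
    intro a ha
    have : Function.support (-a) = Function.support a := Function.support_neg a
    simpa [this] using ha

/-- A nonempty open subset of the product contains a finite cylinder around one of its points. -/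
lemma exists_cylinder {U : Set (Idx → ZMod 2)} (hU : IsOpen U) (hne : U.Nonempty) :
    ∃ (p : Idx → ZMod 2) (F : Finset Idx), ∀ y : Idx → ZMod 2, (∀ i ∈ F, y i = p i) → y ∈ U := by
  obtain ⟨p, hp⟩ := hne
  obtain ⟨I, u, h1, h2⟩ := isOpen_pi_iff.1 hU p hp
  refine ⟨p, I, fun y hy => h2 ?_⟩
  intro i hi
  rw [hy i (by simpa using hi)]
  exact (h1 i (by simpa using hi)).2

lemma shd_product : SHD (Idx → ZMod 2) := by
  intro U hU hne
  choose p F hF using fun n => exists_cylinder (hU n) (hne n)
  have hcount : (⋃ n, (F n : Set Idx)).Countable :=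
    Set.countable_iUnion fun n => (F n).countable_toSet
  have hr : ∀ φ : ℕ → ℕ, ∃ r : ℝ, (φ, r) ∉ ⋃ n, (F n : Set Idx) := by
    intro φ
    by_contra hcon
    push Not at hcon
    have hinj : Function.Injective (fun r : ℝ => ((φ, r) : Idx)) := by
      intro a b hab
      simpa using hab
    have h1 : (Set.univ : Set ℝ).Countable := by
      have h2 : ((fun r : ℝ => ((φ, r) : Idx)) ⁻¹' (⋃ n, (F n : Set Idx))).Countable :=
        hcount.preimage_of_injOn hinj.injOn
      refine h2.mono ?_
      intro r _
      exact hcon r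
    exact Set.not_countable_univ h1
  choose r hr using hr
  classical
  let x : ℕ → Idx → ZMod 2 := fun n i =>
    if i ∈ F n then p n i else if ∃ k, i.1 (2 * k) = n then 1 else 0
  refine ⟨x, fun n => hF n (x n) (fun i hi => by simp [x, hi]), ?_⟩
  intro φ hφ a ha
  have h1 : Tendsto (fun n => x (φ n) (φ, r φ)) atTop (𝓝 (a (φ, r φ))) :=
    (tendsto_pi_nhds.1 ha) (φ, r φ)
  have hnot : ∀ n, (φ, r φ) ∉ F n := by
    intro n hn
    exact hr φ (Set.mem_iUnion.2 ⟨n, by simpa using hn⟩)
  have h2 : ∀ k, x (φ (2 * k)) (φ, r φ) = 1 := by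
    intro k
    have : ∃ j, φ (2 * j) = φ (2 * k) := ⟨k, rfl⟩
    simp only [x, hnot, if_false]
    rw [if_pos this]
  have h3 : ∀ k, x (φ (2 * k + 1)) (φ, r φ) = 0 := by
    intro k
    have : ¬ ∃ j, φ (2 * j) = φ (2 * k + 1) := by
      rintro ⟨j, hj⟩
      have := hφ.injective hj
      omega
    simp only [x, hnot, if_false]
    rw [if_neg this]
  rw [nhds_discrete, tendsto_pure] at h1
  obtain ⟨N, hN⟩ := eventually_atTop.1 h1
  have e1 := hN (2 * N) (by omega)
  have e2 := hN (2 * N + 1) (by omega)
  rw [h2 N] at e1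
  rw [h3 N] at e2
  have : (1 : ZMod 2) = 0 := e1.trans e2.symm
  exact absurd this (by decide)

lemma sigma_dense : Dense (sigma : Set (Idx → ZMod 2)) := by
  classical
  rw [dense_iff_inter_open]
  intro U hU hne
  obtain ⟨p, F, hF⟩ := exists_cylinder hU hne
  refine ⟨fun i => if i ∈ F then p i else 0, hF _ (fun i hi => by simp [hi]), ?_⟩
  have : Function.support (fun i => if i ∈ F then p i else 0) ⊆ (F : Set Idx) := by
    intro i hi
    by_contra hcon
    apply hi
    have : i ∉ F := by simpa using hcon
    simp [this]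
  exact F.countable_toSet.mono this

lemma sigma_seq (x : ℕ → sigma) :
    ∃ (a : sigma) (φ : ℕ → ℕ), StrictMono φ ∧ Tendsto (x ∘ φ) atTop (𝓝 a) := by
  classical
  let S : Set Idx := ⋃ n, Function.support (x n : Idx → ZMod 2)
  have hS : S.Countable := Set.countable_iUnion fun n => (x n).2
  have : Countable S := hS.to_subtype
  obtain ⟨b, φ, hφ, hb⟩ := SeqCompactSpace.tendsto_subseq
    (fun n => (fun i : S => (x n : Idx → ZMod 2) i))
  let a : Idx → ZMod 2 := fun i => if h : i ∈ S then b ⟨i, h⟩ else 0
  have ha : a ∈ sigma := by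
    have : Function.support a ⊆ S := by
      intro i hi
      by_contra hcon
      apply hi
      simp [a, hcon]
    exact hS.mono this
  refine ⟨⟨a, ha⟩, φ, hφ, ?_⟩
  rw [tendsto_subtype_rng, tendsto_pi_nhds]
  intro i
  by_cases h : i ∈ S
  · have := (tendsto_pi_nhds.1 hb) ⟨i, h⟩
    simpa [a, h] using this
  · have h0 : ∀ n, (x n : Idx → ZMod 2) i = 0 := by
      intro n
      by_contra hcon
      exact h (Set.mem_iUnion.2 ⟨n, hcon⟩)
    simp [a, h, h0]

/-- There are a compact Hausdorff topological abelian group `X` which is selectively highly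
divergent and a dense subgroup `D` of `X` which is sequentially compact in the subspace topology
and is not selectively highly divergent. -/
theorem result :
    ∃ (X : Type) (_ : AddCommGroup X) (_ : TopologicalSpace X) (_ : IsTopologicalAddGroup X)
      (_ : CompactSpace X) (_ : T2Space X) (D : AddSubgroup X),
      SHD X ∧ Dense (D : Set X) ∧ SeqCompactSpace D ∧ ¬ SHD D := by
  refine ⟨Idx → ZMod 2, inferInstance, inferInstance, inferInstance, inferInstance, inferInstance,
    sigma, shd_product, sigma_dense, ?_, ?_⟩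
  · constructor
    intro x _
    obtain ⟨a, φ, hφ, ha⟩ := sigma_seq x
    exact ⟨a, Set.mem_univ _, φ, hφ, ha⟩
  · intro h
    obtain ⟨x, _, hx⟩ := h (fun _ => Set.univ) (fun _ => isOpen_univ)
      (fun _ => ⟨0, Set.mem_univ _⟩)
    obtain ⟨a, φ, hφ, ha⟩ := sigma_seq x
    exact hx φ hφ a ha

end Pool.Agent.Results.MP_f0fa00_gt.SigmaProduct
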